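import Mathlib
import Pool.Agent.TH484.BO.Fin

set_option autoImplicit false

/-!
Finite colourings of the positive integers which are locally constant near the integers
`T = q t`, `t` in a (possibly very sparse) set `S`, in the topology in which `n` is close to `T` if
`p n - p T` is close to an integer for finitely many real polynomials `p` (so in the profinite
topology, in the Bohr topology and in their polynomial versions), have monochromatic Pythagorean
triples.  The polynomials and the distance may depend on `T`, and the colour may also depend on the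
size of `n`, as long as it is constant on short intervals `[X, lam X]`.
-/

namespace Pool.Agent.Results.MP_0f91f8_co.BohrOpenColourings

open Polynomial

/-- `n` is close to `m` for the real polynomials in `P`: all the differences `p n - p m`, `p` in
`P`, are at a distance less than `ε` from an integer. -/
def Near (P : Finset ℝ[X]) (ε : ℝ) (m n : ℕ) : Prop :=
  ∀ p ∈ P, |p.eval (n : ℝ) - p.eval (m : ℝ) - round (p.eval (n : ℝ) - p.eval (m : ℝ))| < ε

/-- For all `r` and `M ≥ 1` there are `r` positive multiples of `M` such that all their sums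
(over nonempty sets of indices) are in `S`. -/
def HasFiniteSums (S : Set ℕ) : Prop :=
  ∀ r M : ℕ, 0 < M → ∃ g : Fin r → ℕ, (∀ i, 0 < g i ∧ M ∣ g i) ∧
    ∀ J : Finset (Fin r), J.Nonempty → ∑ i ∈ J, g i ∈ S

/-- `c` is constant at the integers of the interval `[X, lam X]` which are close to `m`. -/
def ConstantNear {κ : Type*} (c : ℕ → κ) (P : Finset ℝ[X]) (ε : ℝ) (m X : ℕ) (lam : ℝ) : Prop :=
  ∀ n n' : ℕ, X ≤ n → (n : ℝ) ≤ lam * X → X ≤ n' → (n' : ℝ) ≤ lam * X →
    Near P ε m n → Near P ε m n' → c n = c n'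

/-- Let `q` be a nonzero polynomial with natural coefficients and `q 0 = 0` (for instance `q = X` or
`q = X ^ k`), let `S` be a set which contains long finite sums sets of multiples of every `M` (for
instance all positive integers), and for `t` in `S` let `P t` be a finite set of real polynomials
and `ε t > 0`.  Let `lam > 1`.  Let `c` be a finite colouring such that for every `L` there is
`Y ≥ L` such that for every `Y'` in `[Y, L Y]` there is `X` in `[Y', Λ Y']` such that for every `t`
in `S` with `1 ≤ t ≤ L` the colouring is constant at the integers in `[X, lam X]` which are close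
to `q t` for `P t` and `ε t`.  Then there are arbitrarily large monochromatic Pythagorean triples. -/
theorem result {κ : Type*} [Finite κ] (c : ℕ → κ) (q : ℕ[X]) (hq : q ≠ 0) (hq0 : q.eval 0 = 0)
    (S : Set ℕ) (hS : HasFiniteSums S) (P : ℕ → Finset ℝ[X]) (ε : ℕ → ℝ)
    (hε : ∀ t ∈ S, 0 < t → 0 < ε t) (lam : ℝ) (hlam : 1 < lam) (Λ : ℕ)
    (hc : ∀ L : ℕ, ∃ Y : ℕ, L ≤ Y ∧ ∀ Y' : ℕ, Y ≤ Y' → Y' ≤ L * Y →
      ∃ X : ℕ, Y' ≤ X ∧ X ≤ Λ * Y' ∧ ∀ t ∈ S, 0 < t → t ≤ L →
        ConstantNear c (P t) (ε t) (q.eval t) X lam) (K : ℕ) :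
    ∃ x y z : ℕ, K < x ∧ K < y ∧ K < z ∧ x ^ 2 + y ^ 2 = z ^ 2 ∧ c x = c y ∧ c y = c z := by
  have hq1 : ∀ t, 0 < t → 0 < q.eval t := by
    intro t ht
    obtain ⟨k, hk⟩ : ∃ k, q.coeff k ≠ 0 := by
      by_contra hcon
      push Not at hcon
      exact hq (Polynomial.ext fun n => by rw [hcon n, coeff_zero])
    rw [eval_eq_sum, Polynomial.sum]
    have h1 : q.coeff k * t ^ k ≤ ∑ n ∈ q.support, q.coeff n * t ^ n :=
      Finset.single_le_sum (f := fun n => q.coeff n * t ^ n) (fun _ _ => Nat.zero_le _)
        (mem_support_iff.2 hk)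
    exact lt_of_lt_of_le (Nat.mul_pos (Nat.pos_of_ne_zero hk) (Nat.pow_pos ht)) h1
  have hq00 : q.coeff 0 = 0 := by rw [coeff_zero_eq_eval_zero]; exact hq0
  exact Pool.Agent.TH484.BO.fin c q hq00 hq1 S hS P ε hε lam hlam Λ
    (fun L => by
      obtain ⟨Y, h1, h2⟩ := hc L
      refine ⟨Y, h1, fun Y' h3 h4 => ?_⟩
      obtain ⟨X, h5, h6, h7⟩ := h2 Y' h3 h4
      exact ⟨X, h5, h6, fun t ht ht0 htL n n' => h7 t ht ht0 htL n n'⟩) K

end Pool.Agent.Results.MP_0f91f8_co.BohrOpenColourings
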