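import Mathlib
import Pool.Agent.TH832.Py.Final

set_option autoImplicit false

/-!
# MP_0f91f8_co: colourings with few colour changes

A change of a colouring `χ` is a number `d` with `χ d ≠ χ (d + 1)`.  A finite colouring of `[0, N]`,
`N` large, has a monochromatic Pythagorean triple if it has at most `δ √N` changes, and more
generally if at most `δ N` numbers up to `N` are within `K √N` of a change.  The same holds with
the multiples of `q` in place of the integers.
-/

namespace Pool.Agent.Results.MP_0f91f8_co.FewColourChanges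

/-- the numbers `u ≤ N` within distance `T` of a change of `χ` below `N` -/
def NearChange {κ : Type*} (χ : ℕ → κ) (N : ℕ) (T : ℝ) : Set ℕ :=
  {u : ℕ | u ≤ N ∧ ∃ d < N, χ d ≠ χ (d + 1) ∧ |(d : ℝ) - u| ≤ T}

/-- For every finite set `κ` of colours there are `K, δ, η > 0` such that for all large `N`, all
`q ≥ 1` and all colourings `c` with colours in `κ` the following holds.  If at most `δ N` of the
numbers `u ≤ N` are within `K √N` of a change of the colouring `n ↦ c (q n)`, or if this colouring
has at most `δ √N` changes below `N`, then there are multiples `x, y, z` of `q` with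
`x ^ 2 + y ^ 2 = z ^ 2`, with the same colour and with `η q N ≤ x, y` and `z ≤ q N`. -/
theorem result (κ : Type*) [Finite κ] : ∃ K : ℝ, 0 < K ∧ ∃ δ : ℝ, 0 < δ ∧ ∃ η : ℝ, 0 < η ∧
    ∃ N₀ : ℕ, ∀ N ≥ N₀, ∀ q : ℕ, 0 < q → ∀ c : ℕ → κ,
      (((NearChange (fun n => c (q * n)) N (K * √N)).ncard : ℝ) ≤ δ * N ∨
        ({n : ℕ | n < N ∧ c (q * n) ≠ c (q * (n + 1))}.ncard : ℝ) ≤ δ * √N) →
      ∃ x y z : ℕ, q ∣ x ∧ q ∣ y ∧ q ∣ z ∧ η * (q * N) ≤ x ∧ η * (q * N) ≤ y ∧ z ≤ q * N ∧
        x ^ 2 + y ^ 2 = z ^ 2 ∧ c x = c y ∧ c y = c z := by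
  classical
  obtain ⟨K, hK, δ, hδ, η, hη, N₀, hmain⟩ := Pool.Agent.TH832.Py.main κ
  refine ⟨K, hK, δ / (2 * K + 1), by positivity, η, hη, max N₀ 1, fun N hN q hq c hc => ?_⟩
  have hN0 : N₀ ≤ N := le_trans (le_max_left _ _) hN
  have hN1 : 1 ≤ N := le_trans (le_max_right _ _) hN
  have hN1' : (1 : ℝ) ≤ N := by exact_mod_cast hN1
  have hle : δ / (2 * K + 1) ≤ δ := div_le_self hδ.le (by linarith)
  have hkey : ((NearChange (fun n => c (q * n)) N (K * √N)).ncard : ℝ) ≤ δ * N := by
    rcases hc with hc | hc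
    · exact hc.trans (by gcongr)
    · set D : Finset ℕ := (Finset.range N).filter fun n => c (q * n) ≠ c (q * (n + 1)) with hD
      have hDcard : {n : ℕ | n < N ∧ c (q * n) ≠ c (q * (n + 1))}.ncard = D.card := by
        rw [← Set.ncard_coe_finset]
        congr 1
        ext n
        simp [hD]
      rw [hDcard] at hc
      have hsub : NearChange (fun n => c (q * n)) N (K * √N) ⊆
          (D.biUnion fun d => Finset.Icc (d - ⌊K * √N⌋₊) (d + ⌊K * √N⌋₊) : Finset ℕ) := by
        rintro u ⟨huN, d, hdN, hne, hdu⟩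
        rw [Finset.mem_coe, Finset.mem_biUnion]
        refine ⟨d, Finset.mem_filter.2 ⟨Finset.mem_range.2 hdN, hne⟩, ?_⟩
        rw [abs_le] at hdu
        rw [Finset.mem_Icc]
        constructor
        · rw [tsub_le_iff_right]
          rcases le_total d u with h | h
          · omega
          · have h1 : ((d - u : ℕ) : ℝ) ≤ K * √N := by
              rw [Nat.cast_sub h]; exact hdu.2
            have h2 := Nat.le_floor h1
            omega
        · rcases le_total u d with h | h
          · omega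
          · have h1 : ((u - d : ℕ) : ℝ) ≤ K * √N := by
              rw [Nat.cast_sub h]; linarith [hdu.1]
            have h2 := Nat.le_floor h1
            omega
      have h1 : (NearChange (fun n => c (q * n)) N (K * √N)).ncard ≤
          D.card * (2 * ⌊K * √N⌋₊ + 1) := by
        refine (Set.ncard_le_ncard hsub (Finset.finite_toSet _)).trans ?_
        rw [Set.ncard_coe_finset]
        refine Finset.card_biUnion_le_card_mul _ _ _ fun d _ => ?_
        rw [Nat.card_Icc]
        omega
      have h2 : (⌊K * √N⌋₊ : ℝ) ≤ K * √N := Nat.floor_le (by positivity)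
      have hs1 : 1 ≤ √(N : ℝ) := Real.one_le_sqrt.2 hN1'
      have hs2 : √(N : ℝ) * √N = N := Real.mul_self_sqrt (by positivity)
      calc ((NearChange (fun n => c (q * n)) N (K * √N)).ncard : ℝ)
          ≤ ((D.card * (2 * ⌊K * √N⌋₊ + 1) : ℕ) : ℝ) := by exact_mod_cast h1
        _ = (D.card : ℝ) * (2 * ⌊K * √N⌋₊ + 1) := by push_cast; ring
        _ ≤ (δ / (2 * K + 1) * √N) * (2 * (K * √N) + √N) := by gcongr
        _ = δ / (2 * K + 1) * (2 * K + 1) * (√N * √N) := by ring
        _ = δ * N := by rw [hs2, div_mul_cancel₀ _ (by positivity)]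
  obtain ⟨x, y, z, hx, hy, hxyz, hz, h1, h2⟩ := hmain N hN0 (fun n => c (q * n)) hkey
  have hq' : (0 : ℝ) < q := by exact_mod_cast hq
  refine ⟨q * x, q * y, q * z, Dvd.intro _ rfl, Dvd.intro _ rfl, Dvd.intro _ rfl, ?_, ?_,
    Nat.mul_le_mul_left q hz, ?_, h1, h2⟩
  · push_cast
    calc η * (q * N) = q * (η * N) := by ring
      _ ≤ q * x := by gcongr
  · push_cast
    calc η * (q * N) = q * (η * N) := by ring
      _ ≤ q * y := by gcongr
  · rw [mul_pow, mul_pow, mul_pow, ← hxyz]; ring

end Pool.Agent.Results.MP_0f91f8_co.FewColourChanges
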