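import Mathlib
import Pool.Agent.TH484.BO.Split

set_option autoImplicit false

/-!
Finite colourings of the positive integers such that for every multiple `T` of a fixed `D` there is
a modulus `q T`, depending on `T` in an arbitrary way, with `c (T u) = c T` for all products
`u ≡ 1 (mod q T)` of primes congruent to one modulo four, have monochromatic Pythagorean triples,
and even arbitrarily many with a common leg.
-/

namespace Pool.Agent.Results.MP_0f91f8_co.NonuniformSplitColourings

/-- positive integers `u ≡ 1 (mod q)` all of whose prime factors are `≡ 1 (mod 4)` -/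
def Split (q u : ℕ) : Prop := 0 < u ∧ u ≡ 1 [MOD q] ∧ ∀ p : ℕ, p.Prime → p ∣ u → p % 4 = 1

/-- Let `D ≥ 1`, let `q T ≥ 1` for every positive multiple `T` of `D`, and let `c` be a finite
colouring such that `c (T u) = c T` for all positive multiples `T` of `D` and all products `u` of
primes `≡ 1 (mod 4)` with `u ≡ 1 (mod q T)`.  Then for all `k` and `K` there are `y > K` and `k`
pairs `x i, z i > K` with distinct `x i`, such that `x i ^ 2 + y ^ 2 = z i ^ 2` and all the numbers
`y, x i, z i` have the same colour. -/
theorem result (D : ℕ) (hD : 0 < D) (q : ℕ → ℕ) (hq : ∀ T, 0 < T → D ∣ T → 0 < q T)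
    {κ : Type*} [Finite κ] (c : ℕ → κ)
    (hc : ∀ T u : ℕ, 0 < T → D ∣ T → Split (q T) u → c (T * u) = c T) (k K : ℕ) :
    ∃ (y : ℕ) (x z : Fin k → ℕ), K < y ∧ Function.Injective x ∧ ∀ i, K < x i ∧ K < z i ∧
      x i ^ 2 + y ^ 2 = z i ^ 2 ∧ c (x i) = c y ∧ c (z i) = c y :=
  TH484.Split.main D hD q hq c hc k K

end Pool.Agent.Results.MP_0f91f8_co.NonuniformSplitColourings
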