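import Mathlib
import Pool.Agent.TH539.PythU
import Pool.Agent.H638.GP.Main

set_option autoImplicit false

/-!
Finite colourings of the positive integers which do not change under multiplication by products
`u ≡ 1 (mod q)` of primes congruent to one modulo four, possibly combined with the signs of
finitely many generalised polynomials, have monochromatic Pythagorean triples.
-/

namespace Pool.Agent.Results.MP_0f91f8_co.PrimesOneModFour

/-- Generalised polynomials: obtained from real constants and the variable by addition,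
multiplication and the floor function. -/
inductive GenPoly : (ℕ → ℝ) → Prop
  | const (c : ℝ) : GenPoly (fun _ => c)
  | var : GenPoly (fun n => (n : ℝ))
  | add {f g : ℕ → ℝ} : GenPoly f → GenPoly g → GenPoly (fun n => f n + g n)
  | mul {f g : ℕ → ℝ} : GenPoly f → GenPoly g → GenPoly (fun n => f n * g n)
  | floor {f : ℕ → ℝ} : GenPoly f → GenPoly (fun n => (⌊f n⌋ : ℝ))

/-- the functions `g i` have the same signs (`-`, `0` or `+`) at `m` and at `n` -/
def SameSigns {s : ℕ} (g : Fin s → ℕ → ℝ) (m n : ℕ) : Prop :=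
  ∀ i, SignType.sign (g i m) = SignType.sign (g i n)

/-- positive integers `u ≡ 1 (mod q)` all of whose prime factors are `≡ 1 (mod 4)` -/
def Split (q u : ℕ) : Prop := 0 < u ∧ u ≡ 1 [MOD q] ∧ ∀ p : ℕ, p.Prime → p ∣ u → p % 4 = 1

theorem GenPoly.toEx {f : ℕ → ℝ} (h : GenPoly f) : ∃ e : H638.GP.Ex, ∀ n, e.ev n = f n := by
  induction h with
  | const c => exact ⟨.const c, fun n => rfl⟩
  | var => exact ⟨.var, fun n => rfl⟩
  | add _ _ h1 h2 =>
    obtain ⟨a, ha⟩ := h1
    obtain ⟨b, hb⟩ := h2
    exact ⟨.add a b, fun n => by simp only [H638.GP.Ex.ev]; rw [ha, hb]⟩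
  | mul _ _ h1 h2 =>
    obtain ⟨a, ha⟩ := h1
    obtain ⟨b, hb⟩ := h2
    exact ⟨.mul a b, fun n => by simp only [H638.GP.Ex.ev]; rw [ha, hb]⟩
  | floor _ h1 =>
    obtain ⟨a, ha⟩ := h1
    exact ⟨.fl a, fun n => by simp only [H638.GP.Ex.ev]; rw [ha]⟩

/-- Let `q ≥ 1`, let `g 0, …, g (s - 1)` be generalised polynomials and let `c` be a finite
colouring such that `c (n u) = c (n v)` whenever `u, v` are products of primes `≡ 1 (mod 4)`,
`u ≡ v ≡ 1 (mod q)`, and each `g i` has the same sign at `n u` and at `n v`.  Then there are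
arbitrarily large monochromatic Pythagorean triples. -/
theorem result {s : ℕ} (g : Fin s → ℕ → ℝ) (hg : ∀ i, GenPoly (g i)) (q : ℕ) (hq : 0 < q)
    {κ : Type*} [Finite κ] (c : ℕ → κ)
    (hc : ∀ n u v : ℕ, 0 < n → Split q u → Split q v → SameSigns g (n * u) (n * v) →
      c (n * u) = c (n * v)) (K : ℕ) :
    ∃ x y z : ℕ, K < x ∧ K < y ∧ K < z ∧ x ^ 2 + y ^ 2 = z ^ 2 ∧ c x = c y ∧ c y = c z := by
  choose e he using fun i => (hg i).toEx
  refine TH539.PythU.main q hq (SameSigns g) ?_ c hc K
  intro M K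
  obtain ⟨k, hk, h⟩ := H638.GP.main e (M + 1) K (Nat.succ_pos M)
  refine ⟨k, hk, fun a b ha ha' hb hb' i => ?_⟩
  have := h i a b ha (by omega) hb (by omega)
  rwa [he, he] at this

end Pool.Agent.Results.MP_0f91f8_co.PrimesOneModFour
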